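import Mathlib

/-!
# Isomorphism testing for first-order definable classes of finite structures: definitions
-/

set_option autoImplicit false

namespace Pool.Agent.Q216.IT

open FirstOrder

/-- A finite relational signature: the list of the arities of its relation symbols. -/
abbrev Sig := List ℕ

/-- The first-order language of a signature. -/
def lang (σ : Sig) : FirstOrder.Language.{0, 0} :=
  ⟨fun _ => Empty, fun k => {i : Fin σ.length // σ.get i = k}⟩

/-- A structure with universe `Fin n`: every relation symbol is given by its full table. -/
abbrev Str (σ : Sig) (n : ℕ) : Type :=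
  (i : Fin σ.length) → (Fin (σ.get i) → Fin n) → Bool

/-- The first-order structure given by the tables. -/
@[instance_reducible] def toStructure {σ : Sig} {n : ℕ} (A : Str σ n) : (lang σ).Structure (Fin n) where
  funMap := fun f _ => Empty.elim f
  RelMap := fun {_} r v => A r.1 (fun j => v (Fin.cast r.2 j)) = true

/-- Membership in the class of the finite models of the sentence `φ`. -/
def Mem {σ : Sig} (φ : (lang σ).Sentence) {n : ℕ} (A : Str σ n) : Prop :=
  @FirstOrder.Language.Sentence.Realize (lang σ) (Fin n) (toStructure A) φ

/-- Isomorphism of two structures with universe `Fin n`. -/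
def Iso {σ : Sig} {n : ℕ} (A B : Str σ n) : Prop :=
  ∃ e : Fin n ≃ Fin n, ∀ (i : Fin σ.length) (v : Fin (σ.get i) → Fin n), A i v = B i (e ∘ v)

theorem Iso.refl {σ : Sig} {n : ℕ} (A : Str σ n) : Iso A A := ⟨Equiv.refl _, fun _ _ => rfl⟩

theorem Iso.symm {σ : Sig} {n : ℕ} {A B : Str σ n} (h : Iso A B) : Iso B A := by
  obtain ⟨e, he⟩ := h
  refine ⟨e.symm, fun i v => ?_⟩
  rw [he]
  congr 1
  funext j
  simp

theorem Iso.trans {σ : Sig} {n : ℕ} {A B C : Str σ n} (h : Iso A B) (h' : Iso B C) : Iso A C := by
  obtain ⟨e, he⟩ := h
  obtain ⟨e', he'⟩ := h'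
  exact ⟨e.trans e', fun i v => by rw [he, he']; rfl⟩

/-- Isomorphism as an equivalence relation on the members of the class with universe `Fin n`. -/
def isoSetoid {σ : Sig} (φ : (lang σ).Sentence) (n : ℕ) : Setoid {A : Str σ n // Mem φ A} where
  r A B := Iso A.1 B.1
  iseqv := ⟨fun A => Iso.refl A.1, fun h => h.symm, fun h h' => h.trans h'⟩

/-- `f_L(n)`: the number of isomorphism types of `n`-element members of the class. -/
noncomputable def numTypes {σ : Sig} (φ : (lang σ).Sentence) (n : ℕ) : ℕ :=
  Nat.card (Quotient (isoSetoid φ n))

/-- The input alphabet: two bits and a separator. -/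
abbrev Sym := Option Bool

/-- The full table of one relation (the tuples are listed in the order of their base `n` codes). -/
def table {n a : ℕ} (R : (Fin a → Fin n) → Bool) : List Sym :=
  List.ofFn fun c : Fin (n ^ a) => some (R (finFunctionFinEquiv.symm c))

/-- The tables of all the relations, each one followed by a separator. -/
def tables {σ : Sig} {n : ℕ} (A : Str σ n) : List Sym :=
  (List.finRange σ.length).flatMap fun i => table (A i) ++ [none]

/-- The input word for a pair of structures: the size `n` in unary, and the tables of the two
structures. -/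
def enc {σ : Sig} {n : ℕ} (A B : Str σ n) : List Sym :=
  List.replicate n (some true) ++ none :: (tables A ++ none :: tables B)

/-- A deterministic Turing machine with `k + 1` two-way infinite tapes.  `move` is `-1`, `0` or `1`.
A state `q` is a halting state with answer `b` if `ans q = some b`. -/
structure Machine where
  Q : Type
  Γ : Type
  finQ : Finite Q
  finΓ : Finite Γ
  k : ℕ
  start : Q
  blank : Γ
  sym : Sym → Γ
  sym_inj : Function.Injective sym
  sym_ne : ∀ s, sym s ≠ blank
  next : Q → (Fin (k + 1) → Γ) → Q
  write : Q → (Fin (k + 1) → Γ) → Fin (k + 1) → Γ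
  move : Q → (Fin (k + 1) → Γ) → Fin (k + 1) → SignType
  ans : Q → Option Bool

/-- A configuration. -/
structure Cfg (M : Machine) where
  state : M.Q
  tape : Fin (M.k + 1) → ℤ → M.Γ
  head : Fin (M.k + 1) → ℤ

/-- The initial configuration: the input word stands on tape `0`, in the cells `0, 1, 2, …`; all
other cells are blank, and all heads are at cell `0`. -/
def Machine.init (M : Machine) (w : List Sym) : Cfg M where
  state := M.start
  tape := fun j z => if j = 0 ∧ 0 ≤ z then ((w[z.toNat]?).map M.sym).getD M.blank else M.blank
  head := fun _ => 0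

/-- One step. -/
def Machine.step (M : Machine) (c : Cfg M) : Cfg M where
  state := M.next c.state fun j => c.tape j (c.head j)
  tape := fun j => Function.update (c.tape j) (c.head j)
    (M.write c.state (fun j => c.tape j (c.head j)) j)
  head := fun j => c.head j + (M.move c.state (fun j => c.tape j (c.head j)) j : ℤ)

/-- The configuration after `t` steps. -/
def Machine.run (M : Machine) (w : List Sym) (t : ℕ) : Cfg M := M.step^[t] (M.init w)

/-- On input `w` the machine halts after exactly `t` steps, with answer `b`. -/
def Machine.HaltsIn (M : Machine) (w : List Sym) (t : ℕ) (b : Bool) : Prop :=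
  (∀ s < t, M.ans (M.run w s).state = none) ∧ M.ans (M.run w t).state = some b

/-- The number of steps on input `w` (until the first halting state). -/
noncomputable def Machine.time (M : Machine) (w : List Sym) : ℕ :=
  sInf {t | M.ans (M.run w t).state ≠ none}

/-- `M` is an isomorphism testing algorithm for the class of the finite models of `φ`. -/
def IsTester {σ : Sig} (φ : (lang σ).Sentence) (M : Machine) : Prop :=
  ∀ (n : ℕ) (A B : Str σ n), Mem φ A → Mem φ B →
    ∃ (t : ℕ) (b : Bool), M.HaltsIn (enc A B) t b ∧ (b = true ↔ Iso A B)

/-- `m_L(γ, n)`: the largest number of steps on pairs of `n`-element members of the class. -/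
noncomputable def maxSteps {σ : Sig} (φ : (lang σ).Sentence) (M : Machine) (n : ℕ) : ℕ :=
  sSup {t | ∃ A B : Str σ n, Mem φ A ∧ Mem φ B ∧ t = M.time (enc A B)}

end Pool.Agent.Q216.IT
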