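import Pool.Agent.Q216.IT.Defs

/-!
# Isomorphism testing: a class with few types which needs the whole input, and a class which
needs none of it
-/

set_option autoImplicit false

namespace Pool.Agent.Q216.IT

open FirstOrder

/-! ### Locality -/

theorem Machine.run_succ (M : Machine) (w : List Sym) (t : ℕ) :
    M.run w (t + 1) = M.step (M.run w t) := Function.iterate_succ_apply' _ _ _

theorem sign_le (s : SignType) : ((s : SignType) : ℤ) ≤ 1 := by
  cases s <;> simp

theorem locality (M : Machine) (w w' : List Sym) (p : ℕ) (h : ∀ i < p, w[i]? = w'[i]?) :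
    ∀ t ≤ p, (M.run w t).state = (M.run w' t).state ∧ (M.run w t).head = (M.run w' t).head ∧
      (M.run w t).head 0 ≤ t ∧ ∀ (j : Fin (M.k + 1)) (z : ℤ), (j ≠ 0 ∨ z < (p : ℤ)) →
        (M.run w t).tape j z = (M.run w' t).tape j z := by
  intro t
  induction t with
  | zero =>
    intro _
    refine ⟨rfl, rfl, le_rfl, ?_⟩
    intro j z hjz
    simp only [Machine.run, Function.iterate_zero, id, Machine.init]
    by_cases hj : j = 0 ∧ 0 ≤ z
    · rw [if_pos hj, if_pos hj]
      have hz : z < p := by
        rcases hjz with h1 | h1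
        · exact absurd hj.1 h1
        · exact h1
      rw [h z.toNat (by omega)]
    · rw [if_neg hj, if_neg hj]
  | succ t ih =>
    intro ht
    obtain ⟨h1, h2, h3, h4⟩ := ih (by omega)
    have hread : (fun j => (M.run w t).tape j ((M.run w t).head j)) =
        fun j => (M.run w' t).tape j ((M.run w' t).head j) := by
      funext j
      rw [← h2]
      apply h4
      by_cases hj : j = 0
      · subst hj
        right
        omega
      · exact Or.inl hj
    rw [M.run_succ, M.run_succ]
    simp only [Machine.step]
    rw [hread, h1, h2]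
    refine ⟨rfl, rfl, ?_, ?_⟩
    · have := sign_le (M.move (M.run w' t).state
        (fun j => (M.run w' t).tape j ((M.run w' t).head j)) 0)
      rw [← h2]
      rw [← h2] at this
      push_cast
      linarith
    · intro j z hjz
      by_cases hz : z = (M.run w' t).head j
      · subst hz
        rw [Function.update_self, Function.update_self]
      · rw [Function.update_of_ne hz, Function.update_of_ne hz]
        exact h4 j z hjz

theorem HaltsIn.time_eq {M : Machine} {w : List Sym} {t : ℕ} {b : Bool} (h : M.HaltsIn w t b) :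
    M.time w = t := by
  unfold Machine.time
  apply le_antisymm
  · exact Nat.sInf_le (by rw [Set.mem_ofPred_eq, h.2]; simp)
  · refine le_csInf ⟨t, by rw [Set.mem_ofPred_eq, h.2]; simp⟩ ?_
    intro s hs
    by_contra hlt
    push Not at hlt
    exact hs (h.1 s hlt)

/-! ### The two classes -/

/-- one unary relation symbol -/
abbrev sg : Sig := [1]

/-- the relation symbol -/
def P : (lang sg).Relations 1 := ⟨0, rfl⟩

/-- every element is in `P` -/
noncomputable def phiK : (lang sg).Sentence :=
  (P.boundedFormula₁ (&0)).all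

/-- at most one element is in `P` -/
noncomputable def phiJ : (lang sg).Sentence :=
  (((P.boundedFormula₁ (&0)) ⊓ (P.boundedFormula₁ (&1))).imp
    ((&0).bdEqual (&1))).all.all

/-- the unary predicate of a structure -/
def pr {n : ℕ} (A : Str sg n) (x : Fin n) : Bool := A 0 fun _ => x

instance : Subsingleton (Fin (List.length sg)) := inferInstanceAs (Subsingleton (Fin 1))

theorem relMap_P {n : ℕ} (A : Str sg n) (v : Fin 1 → Fin n) :
    @FirstOrder.Language.Structure.RelMap (lang sg) (Fin n) (toStructure A) 1 P v ↔
      pr A (v 0) = true := by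
  have h : (fun j => v (Fin.cast P.2 j)) = fun _ : Fin (List.get sg P.1) => v 0 := by
    funext j
    congr 1
    exact Subsingleton.elim (α := Fin 1) _ _
  change A P.1 (fun j => v (Fin.cast P.2 j)) = true ↔ _
  rw [h]
  rfl

theorem mem_phiK {n : ℕ} (A : Str sg n) : Mem phiK A ↔ ∀ x, pr A x = true := by
  unfold Mem phiK FirstOrder.Language.Sentence.Realize FirstOrder.Language.Formula.Realize
  let _ := toStructure A
  rw [FirstOrder.Language.BoundedFormula.realize_all]
  refine forall_congr' fun x => ?_
  rw [FirstOrder.Language.BoundedFormula.realize_rel₁]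
  exact relMap_P A _

theorem mem_phiJ {n : ℕ} (A : Str sg n) :
    Mem phiJ A ↔ ∀ x y, pr A x = true → pr A y = true → x = y := by
  unfold Mem phiJ FirstOrder.Language.Sentence.Realize FirstOrder.Language.Formula.Realize
  let _ := toStructure A
  rw [FirstOrder.Language.BoundedFormula.realize_all]
  refine forall_congr' fun x => ?_
  rw [FirstOrder.Language.BoundedFormula.realize_all]
  refine forall_congr' fun y => ?_
  rw [FirstOrder.Language.BoundedFormula.realize_imp, FirstOrder.Language.BoundedFormula.realize_inf,
    FirstOrder.Language.BoundedFormula.realize_rel₁, FirstOrder.Language.BoundedFormula.realize_rel₁,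
    FirstOrder.Language.BoundedFormula.realize_bdEqual]
  have e1 := relMap_P A
    ![FirstOrder.Language.Term.realize (Sum.elim default (Fin.snoc (Fin.snoc default x) y))
      ((&0 : (lang sg).Term (Empty ⊕ Fin 2)))]
  have e2 := relMap_P A
    ![FirstOrder.Language.Term.realize (Sum.elim default (Fin.snoc (Fin.snoc default x) y))
      ((&1 : (lang sg).Term (Empty ⊕ Fin 2)))]
  constructor
  · intro h h1 h2
    exact h ⟨e1.2 h1, e2.2 h2⟩
  · intro h h1
    exact h (e1.1 h1.1) (e2.1 h1.2)

theorem str_ext {n : ℕ} (A B : Str sg n) (e : Fin n ≃ Fin n) (h : ∀ x, pr A x = pr B (e x)) :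
    Iso A B := by
  refine ⟨e, fun i v => ?_⟩
  have hi : i = 0 := Subsingleton.elim _ _
  subst hi
  have hv : v = fun _ => v (0 : Fin 1) := by
    funext j
    congr 1
    exact Subsingleton.elim (α := Fin 1) _ _
  have := h (v (0 : Fin 1))
  unfold pr at this
  rw [hv]
  exact this

theorem iso_pr {n : ℕ} {A B : Str sg n} (h : Iso A B) :
    ∃ e : Fin n ≃ Fin n, ∀ x, pr A x = pr B (e x) := by
  obtain ⟨e, he⟩ := h
  exact ⟨e, fun x => he 0 fun _ => x⟩

/-- the structure with a given predicate -/
def mk {n : ℕ} (p : Fin n → Bool) : Str sg n := fun i v => p (v (Fin.cast (by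
  have : i = 0 := Subsingleton.elim _ _
  subst this
  rfl) (0 : Fin 1)))

theorem pr_mk {n : ℕ} (p : Fin n → Bool) (x : Fin n) : pr (mk p) x = p x := rfl

theorem numTypes_K (n : ℕ) : numTypes phiK n = 1 := by
  unfold numTypes
  rw [Nat.card_eq_one_iff_unique]
  constructor
  · constructor
    intro a b
    induction a using Quotient.inductionOn with | _ A =>
    induction b using Quotient.inductionOn with | _ B =>
    apply Quotient.sound
    refine str_ext A.1 B.1 (Equiv.refl _) fun x => ?_
    rw [(mem_phiK A.1).1 A.2, (mem_phiK B.1).1 B.2]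
  · exact ⟨Quotient.mk _ ⟨mk fun _ => true, (mem_phiK _).2 fun _ => rfl⟩⟩

theorem iso_J {n : ℕ} (A B : Str sg n) (hA : Mem phiJ A) (hB : Mem phiJ B)
    (h : (∃ x, pr A x = true) ↔ (∃ x, pr B x = true)) : Iso A B := by
  rw [mem_phiJ] at hA hB
  by_cases h1 : ∃ x, pr A x = true
  · obtain ⟨x, hx⟩ := h1
    obtain ⟨y, hy⟩ := h.1 ⟨x, hx⟩
    refine str_ext A B (Equiv.swap x y) fun z => ?_
    by_cases hz : z = x
    · subst hz
      rw [Equiv.swap_apply_left, hx, hy]
    · have h2 : pr A z = false := by
        by_contra hcon
        exact hz (hA z x (by simpa using hcon) hx)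
      have h3 : pr B (Equiv.swap x y z) = false := by
        by_contra hcon
        have := hB _ y (by simpa using hcon) hy
        rw [Equiv.swap_apply_eq_iff, Equiv.swap_apply_right] at this
        exact hz this
      rw [h2, h3]
  · have h2 : ¬ ∃ x, pr B x = true := fun hcon => h1 (h.2 hcon)
    push Not at h1 h2
    refine str_ext A B (Equiv.refl _) fun z => ?_
    rw [Bool.eq_false_of_not_eq_true (h1 z)]
    exact (Bool.eq_false_of_not_eq_true (h2 _)).symm

theorem numTypes_J (n : ℕ) : numTypes phiJ n ≤ 2 := by
  classical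
  unfold numTypes
  have h2 : Nat.card Bool = 2 := by simp
  rw [← h2]
  let F : Quotient (isoSetoid phiJ n) → Bool := Quotient.lift
    (fun A : {A : Str sg n // Mem phiJ A} => decide (∃ x, pr A.1 x = true)) (by
      intro A B h
      obtain ⟨e, he⟩ := iso_pr h
      rw [decide_eq_decide]
      constructor
      · rintro ⟨x, hx⟩
        exact ⟨e x, by rw [← he, hx]⟩
      · rintro ⟨x, hx⟩
        exact ⟨e.symm x, by rw [he, Equiv.apply_symm_apply, hx]⟩)
  refine Nat.card_le_card_of_injective F ?_
  intro a b hab
  induction a using Quotient.inductionOn with | _ A =>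
  induction b using Quotient.inductionOn with | _ B =>
  apply Quotient.sound
  simp only [F, Quotient.lift_mk, decide_eq_decide] at hab
  exact iso_J A.1 B.1 A.2 B.2 hab

/-- the machine that accepts at once -/
def accept : Machine where
  Q := Unit
  Γ := Option Sym
  finQ := inferInstance
  finΓ := inferInstance
  k := 0
  start := ()
  blank := none
  sym := some
  sym_inj := Option.some_injective _
  sym_ne := by simp
  next := fun _ _ => ()
  write := fun _ c => c
  move := fun _ _ _ => 0
  ans := fun _ => some true

theorem accept_halts (w : List Sym) : accept.HaltsIn w 0 true :=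
  ⟨fun _ hs => absurd hs (Nat.not_lt_zero _), rfl⟩

theorem accept_tester : IsTester phiK accept := by
  intro n A B hA hB
  refine ⟨0, true, accept_halts _, fun _ => ?_, fun _ => rfl⟩
  refine str_ext A B (Equiv.refl _) fun x => ?_
  rw [(mem_phiK A).1 hA, (mem_phiK B).1 hB]

theorem maxSteps_accept (n : ℕ) : maxSteps phiK accept n = 0 := by
  unfold maxSteps
  have h : ∀ w, accept.time w = 0 := fun w => HaltsIn.time_eq (accept_halts w)
  rcases Set.eq_empty_or_nonempty {t | ∃ A B : Str sg n, Mem phiK A ∧ Mem phiK B ∧
    t = accept.time (enc A B)} with he | he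
  · rw [he]
    simp
  · apply Nat.le_zero.1
    refine csSup_le he ?_
    rintro t ⟨A, B, _, _, rfl⟩
    rw [h]

theorem finite_times {σ : Sig} (φ : (lang σ).Sentence) (M : Machine) (n : ℕ) :
    {t | ∃ A B : Str σ n, Mem φ A ∧ Mem φ B ∧ t = M.time (enc A B)}.Finite := by
  refine (Set.finite_range fun p : Str σ n × Str σ n => M.time (enc p.1 p.2)).subset ?_
  rintro t ⟨A, B, _, _, rfl⟩
  exact ⟨(A, B), rfl⟩

theorem lower_bound (M : Machine) (hM : IsTester phiJ M) (n : ℕ) (hn : 0 < n) :
    n < maxSteps phiJ M n := by
  let A : Str sg n := mk fun _ => false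
  let B : Str sg n := mk fun x => decide (x = ⟨0, hn⟩)
  have hA : Mem phiJ A := (mem_phiJ A).2 fun x y hx _ => by
    simp only [A, pr_mk] at hx
    exact absurd hx (by simp)
  have hB : Mem phiJ B := (mem_phiJ B).2 fun x y hx hy => by
    simp only [B, pr_mk, decide_eq_true_eq] at hx hy
    rw [hx, hy]
  obtain ⟨t, b, ht, hb⟩ := hM n A A hA hA
  obtain ⟨t', b', ht', hb'⟩ := hM n A B hA hB
  have hbt : b = true := hb.2 (Iso.refl A)
  have hnot : ¬ Iso A B := by
    intro h
    obtain ⟨e, he⟩ := iso_pr h
    have := he (e.symm ⟨0, hn⟩)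
    rw [Equiv.apply_symm_apply] at this
    simp [A, B, pr_mk] at this
  have hloc := locality M (enc A A) (enc A B) n (by
    intro i hi
    unfold enc
    rw [List.getElem?_append_left (by simpa using hi), List.getElem?_append_left (by simpa using hi)])
  have hgt : n < t := by
    by_contra hle
    push Not at hle
    have h1 : M.HaltsIn (enc A B) t b := by
      refine ⟨fun s hs => ?_, ?_⟩
      · rw [← (hloc s (by omega)).1]
        exact ht.1 s hs
      · rw [← (hloc t hle).1]
        exact ht.2
    have h2 : t = t' := by rw [← HaltsIn.time_eq h1, HaltsIn.time_eq ht']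
    subst h2
    have h3 := h1.2.symm.trans ht'.2
    have h4 : b' = true := by
      rw [← hbt]
      exact (Option.some_injective _ h3).symm
    exact hnot (hb'.1 h4)
  refine lt_of_lt_of_le hgt ?_
  unfold maxSteps
  exact le_csSup (finite_times phiJ M n).bddAbove ⟨A, A, hA, hA, (HaltsIn.time_eq ht).symm⟩

end Pool.Agent.Q216.IT
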